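import Mathlib

/-!
# MP_7871bc_co: `S_3(5) = 28/3`, `S_3(6) = 12`, and `S_3(n) ≥ 12 (n - 1) / 5` for `n ≥ 6`
-/

open Finset

namespace Pool.Agent.Results.MP_7871bc_co.FiveAndSixPoints

/-- three-dimensional Euclidean space -/
abbrev E3 : Type := EuclideanSpace ℝ (Fin 3)

/-- the points have mutual distances at least `2` -/
def TwoSeparated {n : ℕ} (P : Fin n → E3) : Prop := ∀ i j, i ≠ j → 2 ≤ dist (P i) (P j)

/-- all values of `∑ |O P_i|²` over `2`-separated `n`-point families `P` and points `O` -/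
def momentSet (n : ℕ) : Set ℝ :=
  {t | ∃ (P : Fin n → E3) (O : E3), TwoSeparated P ∧ t = ∑ i, dist O (P i) ^ 2}

/-- Moser's `S_3(n)` -/
noncomputable def S3 (n : ℕ) : ℝ := sInf (momentSet n)

lemma sum_expand {n : ℕ} (a : Fin n → ℝ) (c : Fin n → Fin n → ℝ) :
    ∑ i, ∑ j, (a i - 2 * c i j + a j) = 2 * n * ∑ i, a i - 2 * ∑ i, ∑ j, c i j := by
  simp only [Finset.sum_add_distrib, Finset.sum_sub_distrib, Finset.sum_const, Finset.card_univ,
    Fintype.card_fin, nsmul_eq_mul, ← Finset.mul_sum]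
  ring

/-- Lagrange-type inequality -/
lemma lagrange {n : ℕ} (P : Fin n → E3) (O : E3) :
    ∑ i, ∑ j, ‖P i - P j‖ ^ 2 ≤ 2 * n * ∑ i, dist O (P i) ^ 2 := by
  have h1 : ∀ i j, ‖P i - P j‖ ^ 2
      = ‖P i - O‖ ^ 2 - 2 * inner ℝ (P i - O) (P j - O) + ‖P j - O‖ ^ 2 := by
    intro i j
    have := norm_sub_sq_real (P i - O) (P j - O)
    rw [sub_sub_sub_cancel_right] at this
    exact this
  have h2 : ∑ i, ∑ j, ‖P i - P j‖ ^ 2
      = 2 * n * ∑ i, ‖P i - O‖ ^ 2 - 2 * ‖∑ i, (P i - O)‖ ^ 2 := by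
    simp_rw [h1]
    rw [sum_expand (fun i => ‖P i - O‖ ^ 2) (fun i j => inner ℝ (P i - O) (P j - O))]
    have h3 : ∑ i, ∑ j, inner ℝ (P i - O) (P j - O) = ‖∑ i, (P i - O)‖ ^ 2 := by
      rw [← real_inner_self_eq_norm_sq, sum_inner]
      refine Finset.sum_congr rfl fun i _ => ?_
      rw [inner_sum]
    rw [h3]
  have h4 : ∀ i, dist O (P i) ^ 2 = ‖P i - O‖ ^ 2 := by
    intro i; rw [dist_comm, dist_eq_norm]
  simp_rw [h4]
  rw [h2]
  have := sq_nonneg ‖∑ i, (P i - O)‖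
  linarith

/-- the constraint map `u ↦ (∑ u_i, ∑ u_i P_i)` -/
noncomputable def Phi {n : ℕ} (P : Fin n → E3) : EuclideanSpace ℝ (Fin n) →ₗ[ℝ] ℝ × E3 where
  toFun u := (∑ i, u i, ∑ i, u i • P i)
  map_add' u v := by
    ext <;> simp [Finset.sum_add_distrib, add_smul]
  map_smul' c u := by
    ext <;> simp [Finset.mul_sum, mul_assoc]

lemma finrank_ker {n : ℕ} (P : Fin n → E3) :
    n ≤ Module.finrank ℝ (LinearMap.ker (Phi P)) + 4 := by
  have h := LinearMap.finrank_range_add_finrank_ker (Phi P)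
  have h2 : Module.finrank ℝ (LinearMap.range (Phi P)) ≤ 4 := by
    calc Module.finrank ℝ (LinearMap.range (Phi P)) ≤ Module.finrank ℝ (ℝ × E3) :=
          Submodule.finrank_le _
      _ = 4 := by simp [Module.finrank_prod]
  have h3 : Module.finrank ℝ (EuclideanSpace ℝ (Fin n)) = n := by simp
  omega

/-- quadratic identity for an affine dependency -/
lemma dep_identity {n : ℕ} (P : Fin n → E3) (u : EuclideanSpace ℝ (Fin n))
    (h1 : ∑ i, u i = 0) (h2 : ∑ i, u i • P i = 0) :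
    ∑ i, ∑ j, u i * u j * ‖P i - P j‖ ^ 2 = 0 := by
  have e : ∀ i j, u i * u j * ‖P i - P j‖ ^ 2
      = (u i * ‖P i‖ ^ 2) * u j - 2 * inner ℝ (u i • P i) (u j • P j)
        + u i * (u j * ‖P j‖ ^ 2) := by
    intro i j
    rw [norm_sub_sq_real, real_inner_smul_left, real_inner_smul_right]
    ring
  simp_rw [e]
  simp only [Finset.sum_add_distrib, Finset.sum_sub_distrib, ← Finset.mul_sum, ← Finset.sum_mul]
  have h3 : ∑ i, ∑ j, inner ℝ (u i • P i) (u j • P j) = (0 : ℝ) := by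
    have : ∀ i, ∑ j, inner ℝ (u i • P i) (u j • P j) = inner ℝ (u i • P i) (∑ j, u j • P j) := by
      intro i; rw [inner_sum]
    simp_rw [this, h2]
    simp
  rw [h3, h1]
  ring

/-- main inequality: `∑_{i,j} |P_i P_j|² ≥ 4 n (n-1) + 8 n (n-4) / (n-2)` -/
lemma main_ineq {n : ℕ} (hn : 4 ≤ n) (P : Fin n → E3) (hP : TwoSeparated P) :
    4 * (n : ℝ) * (n - 1) + 8 * n * (n - 4) / (n - 2) ≤ ∑ i, ∑ j, ‖P i - P j‖ ^ 2 := by
  classical
  set D := LinearMap.ker (Phi P) with hD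
  set m := Module.finrank ℝ D with hm
  have hmn : n ≤ m + 4 := finrank_ker P
  let b := stdOrthonormalBasis ℝ D
  -- vectors
  let v : Fin m → EuclideanSpace ℝ (Fin n) := fun k => (b k : EuclideanSpace ℝ (Fin n))
  have hvo : Orthonormal ℝ v := by
    have := b.orthonormal
    exact this.comp_linearIsometry D.subtypeₗᵢ
  have hv1 : ∀ k, ∑ i, v k i = 0 := by
    intro k
    have : Phi P (v k) = 0 := (b k).2
    have := congrArg Prod.fst this
    simpa [Phi] using this
  have hv2 : ∀ k, ∑ i, v k i • P i = 0 := by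
    intro k
    have : Phi P (v k) = 0 := (b k).2
    have := congrArg Prod.snd this
    simpa [Phi] using this
  have hnorm : ∀ k, ∑ i, v k i * v k i = 1 := by
    intro k
    have h := hvo.1 k
    have h2 : ‖v k‖ ^ 2 = 1 := by rw [h]; norm_num
    rw [EuclideanSpace.real_norm_sq_eq] at h2
    simpa [sq] using h2
  set M : Fin n → Fin n → ℝ := fun i j => ∑ k, v k i * v k j with hM
  have hn0 : (0 : ℝ) < n := by
    have : 0 < n := by omega
    exact_mod_cast this
  have hn2 : (0 : ℝ) < (n : ℝ) - 2 := by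
    have : (4 : ℝ) ≤ n := by exact_mod_cast hn
    linarith
  -- entries bounded
  have hMij : ∀ i j, i ≠ j → M i j ≤ 1 / 2 - 1 / n := by
    intro i j hij
    let w : EuclideanSpace ℝ (Fin n) :=
      EuclideanSpace.single i 1 + EuclideanSpace.single j 1 - (2 / n : ℝ) • WithLp.toLp 2 (fun _ => (1 : ℝ))
    have hw : ∀ k, inner ℝ (v k) w = v k i + v k j := by
      intro k
      have : inner ℝ (v k) (WithLp.toLp 2 (fun _ => (1 : ℝ)) : EuclideanSpace ℝ (Fin n)) = 0 := by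
        simp [PiLp.inner_apply, hv1 k]
      simp only [w, inner_sub_right, inner_add_right, inner_smul_right, this]
      simp [EuclideanSpace.inner_single_right]
    have hb := hvo.sum_inner_products_le (x := w) (s := Finset.univ)
    have hwn : ‖w‖ ^ 2 = 2 - 4 / n := by
      rw [EuclideanSpace.real_norm_sq_eq]
      have hwi : ∀ l, w l = (if l = i then 1 else 0) + (if l = j then 1 else 0) - 2 / n := by
        intro l
        simp [w]
      simp_rw [hwi]
      have : ∀ l : Fin n, (((if l = i then 1 else 0) + (if l = j then 1 else 0) - 2 / n : ℝ)) ^ 2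
          = (if l = i then ((1 : ℝ) - 4 / n) else 0) + (if l = j then ((1 : ℝ) - 4 / n) else 0)
            + 4 / n ^ 2 := by
        intro l
        by_cases h1 : l = i
        · subst h1
          simp [hij]
          ring
        · by_cases h2 : l = j
          · subst h2
            simp [h1]
            ring
          · simp [h1, h2]
            ring
      simp_rw [this]
      rw [Finset.sum_add_distrib, Finset.sum_add_distrib]
      simp
      field_simp
      ring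
    have hb2 : ∑ k, (v k i + v k j) ^ 2 ≤ 2 - 4 / n := by
      rw [← hwn]
      refine le_trans (le_of_eq ?_) hb
      refine Finset.sum_congr rfl fun k _ => ?_
      rw [hw k]
      simp [sq_abs]
    have hb3 : 0 ≤ ∑ k, (v k i - v k j) ^ 2 := Finset.sum_nonneg fun k _ => sq_nonneg _
    have hb4 : 4 * M i j = ∑ k, (v k i + v k j) ^ 2 - ∑ k, (v k i - v k j) ^ 2 := by
      rw [← Finset.sum_sub_distrib, hM, Finset.mul_sum]
      refine Finset.sum_congr rfl fun k _ => ?_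
      ring
    have : 4 / (n : ℝ) = 4 * (1 / n) := by ring
    rw [this] at hb2
    linarith
  -- the sum identity
  have hsum0 : ∑ i, ∑ j, M i j * ‖P i - P j‖ ^ 2 = 0 := by
    have : ∑ i, ∑ j, M i j * ‖P i - P j‖ ^ 2
        = ∑ k, ∑ i, ∑ j, v k i * v k j * ‖P i - P j‖ ^ 2 := by
      simp only [hM, Finset.sum_mul]
      rw [Finset.sum_comm' (t' := Finset.univ) (s' := fun _ => Finset.univ) (by simp)]
      rw [Finset.sum_congr rfl (fun i _ => Finset.sum_comm)]
      rw [Finset.sum_comm]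
      refine Finset.sum_congr rfl fun k _ => ?_
      rw [Finset.sum_comm]
    rw [this]
    exact Finset.sum_eq_zero fun k _ => dep_identity P (v k) (hv1 k) (hv2 k)
  have hrow : ∑ i, ∑ j, M i j = 0 := by
    refine Finset.sum_eq_zero fun i _ => ?_
    simp only [hM]
    rw [Finset.sum_comm]
    refine Finset.sum_eq_zero fun k _ => ?_
    rw [← Finset.mul_sum, hv1 k, mul_zero]
  have htr : ∑ i, M i i = m := by
    simp only [hM]
    rw [Finset.sum_comm]
    simp [hnorm]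
  -- termwise bound
  have hterm : ∀ i j, M i j * ‖P i - P j‖ ^ 2
      ≤ (1 / 2 - 1 / n) * (‖P i - P j‖ ^ 2 - (if i = j then 0 else 4))
        + 4 * (M i j - (if i = j then M i i else 0)) := by
    intro i j
    by_cases h : i = j
    · subst h
      simp
    · simp only [h, if_false]
      have h4 : 4 ≤ ‖P i - P j‖ ^ 2 := by
        have := hP i j h
        rw [dist_eq_norm] at this
        nlinarith
      have := mul_le_mul_of_nonneg_right (hMij i j h) (by linarith : 0 ≤ ‖P i - P j‖ ^ 2 - 4)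
      linarith
  have hfin := Finset.sum_le_sum fun i (_ : i ∈ Finset.univ) =>
    Finset.sum_le_sum fun j (_ : j ∈ Finset.univ) => hterm i j
  rw [hsum0] at hfin
  simp only [Finset.sum_add_distrib, ← Finset.mul_sum, Finset.sum_sub_distrib, hrow] at hfin
  have hd1 : ∑ i : Fin n, ∑ j : Fin n, (if i = j then (0 : ℝ) else 4) = 4 * n * (n - 1) := by
    have : ∀ i j : Fin n, (if i = j then (0 : ℝ) else 4) = 4 - (if i = j then 4 else 0) := by
      intro i j; split_ifs <;> simp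
    simp_rw [this]
    simp [Finset.sum_sub_distrib]
    ring
  have hd2 : ∑ i : Fin n, ∑ j : Fin n, (if i = j then M i i else 0) = m := by
    rw [← htr]
    refine Finset.sum_congr rfl fun i _ => ?_
    simp
  rw [hd1, hd2] at hfin
  have hm4 : (n : ℝ) - 4 ≤ m := by
    have : (n : ℝ) ≤ m + 4 := by exact_mod_cast hmn
    linarith
  set S := ∑ i, ∑ j, ‖P i - P j‖ ^ 2 with hS
  have h5 : (1 / 2 - 1 / (n : ℝ)) * (S - 4 * n * (n - 1)) ≥ 4 * (n - 4) := by
    linarith
  have h6 : (1 / 2 - 1 / (n : ℝ)) = (n - 2) / (2 * n) := by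
    field_simp
  rw [h6] at h5
  have h7 : 8 * (n : ℝ) * (n - 4) / (n - 2) ≤ S - 4 * n * (n - 1) := by
    rw [div_le_iff₀ hn2]
    have h8 : (n - 2) / (2 * n) * (S - 4 * n * (n - 1)) * (2 * n) = (S - 4 * n * (n - 1)) * (n - 2) := by
      field_simp
    have h9 := mul_le_mul_of_nonneg_right h5 (by positivity : (0 : ℝ) ≤ 2 * n)
    rw [h8] at h9
    linarith
  linarith

lemma bound_of_sep {n : ℕ} (hn : 4 ≤ n) (P : Fin n → E3) (hP : TwoSeparated P) (O : E3) :
    2 * ((n : ℝ) - 1) + 4 * (n - 4) / (n - 2) ≤ ∑ i, dist O (P i) ^ 2 := by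
  have h1 := main_ineq hn P hP
  have h2 := lagrange P O
  have hn0 : (0 : ℝ) < n := by
    have : 0 < n := by omega
    exact_mod_cast this
  have h3 : 4 * (n : ℝ) * (n - 1) + 8 * n * (n - 4) / (n - 2)
      = 2 * n * (2 * ((n : ℝ) - 1) + 4 * (n - 4) / (n - 2)) := by ring
  rw [h3] at h1
  exact le_of_mul_le_mul_left (h1.trans h2) (by positivity)

lemma sum_erase_erase {ι : Type*} [DecidableEq ι] (s : Finset ι) (f : ι → ι → ℝ)
    (h0 : ∀ i, f i i = 0) :
    ∑ k ∈ s, ∑ i ∈ s.erase k, ∑ j ∈ s.erase k, f i j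
      = ((s.card : ℝ) - 2) * ∑ i ∈ s, ∑ j ∈ s, f i j := by
  have h1 : ∀ k ∈ s, ∑ i ∈ s.erase k, ∑ j ∈ s.erase k, f i j
      = ∑ i ∈ s, ∑ j ∈ s, f i j - ∑ j ∈ s, f k j - ∑ i ∈ s, f i k := by
    intro k hk
    have h2 : ∀ i, ∑ j ∈ s.erase k, f i j = ∑ j ∈ s, f i j - f i k := fun i =>
      Finset.sum_erase_eq_sub hk
    simp_rw [h2]
    rw [Finset.sum_erase_eq_sub hk, Finset.sum_sub_distrib, h0]
    ring
  rw [Finset.sum_congr rfl h1, Finset.sum_sub_distrib, Finset.sum_sub_distrib,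
    Finset.sum_const, nsmul_eq_mul]
  rw [Finset.sum_comm (s := s) (t := s) (f := fun k i => f i k)]
  ring

lemma average {N : ℕ} (P : Fin N → E3) (hP : TwoSeparated P) :
    ∀ c : ℕ, 6 ≤ c → ∀ s : Finset (Fin N), s.card = c →
      24 / 5 * (c : ℝ) * (c - 1) ≤ ∑ i ∈ s, ∑ j ∈ s, ‖P i - P j‖ ^ 2 := by
  intro c hc
  induction c, hc using Nat.le_induction with
  | base =>
    intro s hs
    let e := s.orderIsoOfFin hs
    have hP' : TwoSeparated (fun i : Fin 6 => P (e i)) := by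
      intro i j hij
      refine hP _ _ ?_
      intro h
      exact hij (e.injective (Subtype.ext h))
    have h := main_ineq (by norm_num) _ hP'
    have h2 : ∑ i, ∑ j, ‖P (e i) - P (e j)‖ ^ 2 = ∑ i ∈ s, ∑ j ∈ s, ‖P i - P j‖ ^ 2 := by
      rw [← Finset.sum_coe_sort s, ← Equiv.sum_comp e.toEquiv]
      refine Finset.sum_congr rfl fun i _ => ?_
      rw [← Finset.sum_coe_sort s, ← Equiv.sum_comp e.toEquiv]
      rfl
    rw [h2] at h
    norm_num at h ⊢
    exact h
  | succ c hc ih =>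
    intro s hs
    have h1 := sum_erase_erase s (fun i j => ‖P i - P j‖ ^ 2) (by simp)
    have h2 : ∀ k ∈ s, 24 / 5 * (c : ℝ) * (c - 1)
        ≤ ∑ i ∈ s.erase k, ∑ j ∈ s.erase k, ‖P i - P j‖ ^ 2 := by
      intro k hk
      exact ih (s.erase k) (by rw [Finset.card_erase_of_mem hk, hs]; rfl)
    have h3 := Finset.sum_le_sum h2
    rw [h1, Finset.sum_const, nsmul_eq_mul, hs] at h3
    push_cast at h3 ⊢
    have hc' : (6 : ℝ) ≤ c := by exact_mod_cast hc
    have h4 : 0 < (c : ℝ) - 1 := by linarith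
    have h5 : ((c : ℝ) - 1) * (24 / 5 * (c + 1) * (c + 1 - 1))
        ≤ (c - 1) * ∑ i ∈ s, ∑ j ∈ s, ‖P i - P j‖ ^ 2 := by
      calc ((c : ℝ) - 1) * (24 / 5 * (c + 1) * (c + 1 - 1))
          = ((c : ℝ) + 1) * (24 / 5 * c * (c - 1)) := by ring
        _ ≤ _ := h3
        _ = _ := by ring
    exact le_of_mul_le_mul_left h5 h4

lemma bound_large {n : ℕ} (hn : 6 ≤ n) (P : Fin n → E3) (hP : TwoSeparated P) (O : E3) :
    12 / 5 * ((n : ℝ) - 1) ≤ ∑ i, dist O (P i) ^ 2 := by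
  have h1 := average P hP n hn Finset.univ (by simp)
  have h2 := lagrange P O
  have hn0 : (0 : ℝ) < n := by
    have : 0 < n := by omega
    exact_mod_cast this
  have h3 : 24 / 5 * (n : ℝ) * (n - 1) = 2 * n * (12 / 5 * ((n : ℝ) - 1)) := by ring
  rw [h3] at h1
  exact le_of_mul_le_mul_left (h1.trans h2) (by positivity)

lemma dist_sq (X Y : E3) :
    dist X Y ^ 2 = (X 0 - Y 0) ^ 2 + (X 1 - Y 1) ^ 2 + (X 2 - Y 2) ^ 2 := by
  rw [EuclideanSpace.dist_eq, Real.sq_sqrt (Finset.sum_nonneg fun _ _ => sq_nonneg _)]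
  simp [Fin.sum_univ_three, Real.dist_eq, sq_abs]

lemma two_le_dist (X Y : E3) (h : 4 ≤ (X 0 - Y 0) ^ 2 + (X 1 - Y 1) ^ 2 + (X 2 - Y 2) ^ 2) :
    2 ≤ dist X Y := by
  rw [← dist_sq] at h
  nlinarith [dist_nonneg (x := X) (y := Y)]

/-- the bipyramid over the regular triangle (for `a = 1/√3`, `b = √(8/3)`) -/
def bip (a b : ℝ) : Fin 5 → E3 :=
  ![!₂[2 * a, 0, 0], !₂[-a, 1, 0], !₂[-a, -1, 0], !₂[0, 0, b], !₂[0, 0, -b]]

/-- the octahedron -/
noncomputable def octahedron : Fin 6 → E3 :=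
  ![!₂[√2, 0, 0], !₂[-√2, 0, 0], !₂[0, √2, 0], !₂[0, -√2, 0], !₂[0, 0, √2], !₂[0, 0, -√2]]


lemma s2 : (√2) ^ 2 = (2 : ℝ) := Real.sq_sqrt (by norm_num)

lemma bip_sep (a b : ℝ) (h3 : a ^ 2 = 1 / 3) (h8 : b ^ 2 = 8 / 3) : TwoSeparated (bip a b) := by
  intro i j hij
  apply two_le_dist
  fin_cases i <;> fin_cases j <;> first | (exact absurd rfl hij) | skip
  all_goals
    simp [bip]
    nlinarith

lemma octahedron_sep : TwoSeparated octahedron := by
  intro i j hij
  apply two_le_dist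
  have h2 := s2
  fin_cases i <;> fin_cases j <;> first | (exact absurd rfl hij) | skip
  all_goals
    simp [octahedron]
    nlinarith

lemma bip_sum (a b : ℝ) (h3 : a ^ 2 = 1 / 3) (h8 : b ^ 2 = 8 / 3) :
    ∑ i, dist (0 : E3) (bip a b i) ^ 2 = 28 / 3 := by
  simp only [dist_sq, Fin.sum_univ_five, bip] at *
  simp
  nlinarith

lemma octahedron_sum : ∑ i, dist (0 : E3) (octahedron i) ^ 2 = 12 := by
  have h2 := s2
  simp only [dist_sq, Fin.sum_univ_six, octahedron] at *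
  simp
  nlinarith

lemma bddBelow (n : ℕ) : BddBelow (momentSet n) := by
  refine ⟨0, ?_⟩
  rintro t ⟨P, O, -, rfl⟩
  exact Finset.sum_nonneg fun _ _ => sq_nonneg _

lemma nonempty (n : ℕ) : (momentSet n).Nonempty := by
  refine ⟨_, fun i : Fin n => !₂[2 * (i : ℝ), 0, 0], 0, ?_, rfl⟩
  intro i j hij
  apply two_le_dist
  have h1 : (1 : ℝ) ≤ ((i : ℝ) - j) ^ 2 := by
    have this_ne : (i : ℤ) - j ≠ 0 := by
      intro h
      apply hij
      ext
      omega
    have h2 : (1 : ℤ) ≤ ((i : ℤ) - j) ^ 2 := by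
      have := sq_nonneg ((i : ℤ) - j)
      have h3 : ((i : ℤ) - j) ^ 2 ≠ 0 := pow_ne_zero 2 this_ne
      omega
    exact_mod_cast h2
  simp
  nlinarith

end Pool.Agent.Results.MP_7871bc_co.FiveAndSixPoints

open Pool.Agent.Results.MP_7871bc_co.FiveAndSixPoints in
theorem Pool.Agent.Results.MP_7871bc_co.FiveAndSixPoints.result :
    (IsLeast (momentSet 5) (28 / 3) ∧ S3 5 = 28 / 3) ∧
      (IsLeast (momentSet 6) 12 ∧ S3 6 = 12) ∧
      (∀ n : ℕ, 6 ≤ n → 12 / 5 * ((n : ℝ) - 1) ≤ S3 n) := by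
  have h5 : IsLeast (momentSet 5) (28 / 3) := by
    have h3 : (√(1 / 3)) ^ 2 = (1 / 3 : ℝ) := Real.sq_sqrt (by norm_num)
    have h8 : (√(8 / 3)) ^ 2 = (8 / 3 : ℝ) := Real.sq_sqrt (by norm_num)
    refine ⟨⟨bip √(1 / 3) √(8 / 3), 0, bip_sep _ _ h3 h8, (bip_sum _ _ h3 h8).symm⟩, ?_⟩
    rintro t ⟨P, O, hP, rfl⟩
    have := bound_of_sep (by norm_num) P hP O
    norm_num at this
    exact this
  have h6 : IsLeast (momentSet 6) 12 := by
    refine ⟨⟨octahedron, 0, octahedron_sep, octahedron_sum.symm⟩, ?_⟩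
    rintro t ⟨P, O, hP, rfl⟩
    have := bound_of_sep (by norm_num) P hP O
    norm_num at this
    exact this
  refine ⟨⟨h5, h5.csInf_eq⟩, ⟨h6, h6.csInf_eq⟩, ?_⟩
  intro n hn
  refine le_csInf (nonempty n) ?_
  rintro t ⟨P, O, hP, rfl⟩
  exact bound_large hn P hP O
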